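import Pool.Agent.N848.OL.Stm

/-!
# Leaf OL/NMT: no roots of unity of order `p`

By helper899.
-/

set_option autoImplicit false

namespace Pool.Agent.N899.OL.NMT

open NumberField IsDedekindDomain Pool.Agent.N848.OL

/-- there is a prime above `p` -/
theorem exists_above (p : ℕ) [hp : Fact p.Prime] (K : Type) [Field K] [NumberField K] :
    ∃ v : HeightOneSpectrum (𝓞 K), (p : 𝓞 K) ∈ v.asIdeal := by
  have hmax : (Ideal.span {(p : ℤ)}).IsMaximal :=
    PrincipalIdealRing.isMaximal_of_irreducible (Nat.prime_iff_prime_int.mp hp.out).irreducible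
  obtain ⟨P, hP, hPo⟩ := Ideal.exists_maximal_ideal_liesOver_of_isIntegral (S := 𝓞 K)
    (Ideal.span {(p : ℤ)})
  have h1 : (p : ℤ) ∈ P.under ℤ := by
    rw [← hPo.over]
    exact Ideal.mem_span_singleton_self _
  have h2 : (p : 𝓞 K) ∈ P := by
    have h3 := Ideal.mem_comap.1 h1
    simpa using h3
  have hp0 : (p : 𝓞 K) ≠ 0 := by exact_mod_cast hp.out.ne_zero
  have hne : P ≠ ⊥ := by
    rintro rfl
    exact hp0 (by simpa using h2)
  exact ⟨⟨P, hP.isPrime, hne⟩, h2⟩

/-- OL/NMT: no roots of unity of order `p` -/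
theorem t_NMT (hMUZ : S_MUZ) : S_NMT := by
  intro p hp hp2 K _ _ hK z hz
  obtain ⟨v, hv⟩ := exists_above p K
  by_contra hne
  have hz0 : v.valuation K (z - 1) ≠ 0 := by
    rw [Valuation.ne_zero_iff]
    exact sub_ne_zero.2 hne
  have h1 : ∀ M : ℕ, v.valuation K (z - 1) ≤ v.valuation K (p : K) ^ M := by
    intro M
    have h2 := hMUZ p hp2 K v hv (hK v hv) z (M + 1) (by omega) (by
      rw [hz, sub_self, map_zero]
      exact bot_le)
    rwa [Nat.add_sub_cancel, map_pow] at h2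
  have hp1 : v.valuation K (p : K) < 1 := by
    have h3 := (v.valuation_lt_one_iff_mem (K := K) (p : 𝓞 K)).2 hv
    simpa using h3
  obtain ⟨n, hn⟩ := exists_pow_lt₀ hp1 (Units.mk0 _ hz0)
  exact absurd (h1 n) (not_le.2 hn)

end Pool.Agent.N899.OL.NMT
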